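import Pool.Agent.H80C.Main

/-!
# Claw-free cubic graphs: `Γ ≤ Γ⁻`

Outline. Let `D` be a minimal dominating set of size `Γ` for which the number of bad vertices
(vertices outside `D` all of whose closed neighbourhood is dominated at least twice) is smallest.
* `Str.lean`: bad vertices come in adjacent pairs; the two neighbours of a bad vertex in `D` are
  adjacent, each has exactly one private neighbour, and this one lies in a triangle all of whose
  vertices are privately dominated.
* `Swap.lean`: by the choice of `D`, one further vertex of that triangle has a dominator that is
  adjacent to another vertex of `D`.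
* `Sel.lean`: Hall's theorem selects for all bad vertices outside a set `L` and its partners
  private neighbours in different triangles, at least `#L` of these triangles being pure (all
  three vertices are private neighbours of neighbours of bad vertices).
* `Fun.lean`: lowering the indicator function of `D` at the selected private neighbours and on `L`
  and raising it on the selected triangles (and at bad vertices of pure triangles) gives a minimal
  minus dominating function of weight at least `#D`.
-/

namespace Pool.Agent.Results.MP_7b6923_co.ClawFree

open Pool.Agent.H80M

/-- In a claw-free cubic graph the upper domination number is at most the upper minus domination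
number. -/
theorem result (V : Type) [Fintype V] (G : SimpleGraph V)
    (hreg : ∀ v, {u | G.Adj v u}.ncard = 3)
    (hclaw : ¬ ∃ v a b c, G.Adj v a ∧ G.Adj v b ∧ G.Adj v c ∧ a ≠ b ∧ a ≠ c ∧ b ≠ c ∧
      ¬ G.Adj a b ∧ ¬ G.Adj a c ∧ ¬ G.Adj b c) : (Gam G : ℤ) ≤ GamM G := by
  apply Pool.Agent.H80C.gam_le_of hreg
  intro v
  obtain ⟨a, b, c, hab, hac, hbc, hs⟩ := Set.ncard_eq_three.1 (hreg v)
  have hm : ∀ w, w ∈ ({a, b, c} : Set V) → G.Adj v w := by
    intro w hw
    rw [← hs] at hw
    exact hw
  have ha := hm a (by simp)
  have hb := hm b (by simp)
  have hc := hm c (by simp)
  by_contra hno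
  exact hclaw ⟨v, a, b, c, ha, hb, hc, hab, hac, hbc, fun h => hno ⟨a, b, ha, hb, h⟩,
    fun h => hno ⟨a, c, ha, hc, h⟩, fun h => hno ⟨b, c, hb, hc, h⟩⟩

end Pool.Agent.Results.MP_7b6923_co.ClawFree
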